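import Pool.Agent.K3h98.KT.Main
import Pool.Agent.X303.TBDual

/-!
# Perfectness of the motivic cup product pairings for the smooth projective varieties generated by
products of abelian varieties whose slope fields have real intersections

Over an algebraic closure of the field with `p` elements each abelian variety is isogenous to the
reduction of an abelian variety of CM type (Honda, Tate). So an abelian variety over the field with
`p ^ a` elements is modelled by `RedAV`: a finite product of CM types `(E i, Φ i)` with Weil numbers
`π i ∈ E i` that satisfy the formula of Shimura and Taniyama; its cohomology of degree `n`, with
coefficients in an algebraically closed field `Ω`, consists of the alternating `n`-forms on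
`Ω ⊗ H_1`, on which the Frobenius endomorphism acts by `π`.

**Slope fields.** Let `Z` be an abelian variety over a finite field, with the factors `Z i`, of dimension
`g i`, and their CM fields `E i`, of degree `2 g i`. The slope (`slope`) of the Frobenius eigenvalue
`φ (π i)`, for an embedding `φ` of `E i` in `ℂ`, is its `p`-adic valuation (for the fixed place `ν`)
divided by that of the number of elements of the ground field. An automorphism `g` of `ℂ` preserves the
slopes of the factors in a set `F` (`PreservesSlopes`) if `φ` and `g ∘ φ` have the same slope for all
embeddings `φ` of their CM fields. The slope field of `F` (`slopeField`) is the field of the algebraic
numbers which are fixed by all these automorphisms. It is contained in the compositum of all the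
conjugates of the fields `E i`, `i ∈ F`, but it can be much smaller: `Z i` is of K3 type (Zarhin;
`IsK3Type`) if there is an embedding `φ₀` such that all slopes are `1 / 2`, except for those at `φ₀` and
at its complex conjugate; and then the slope field of `{i}` is contained in the field `φ₀ (E i)` itself.

**Merged sets.** We consider the sets of factors (`IsMerged`) which are obtained from

* the bases (`IsBase`): factors of total dimension at most five without exceptional pairs (`IsExc`), or
  factors of dimension at most three such that any two of them whose CM fields have the same Galois
  closure have Galois CM fields, or one of them is supersingular; and
* the single factors `Z i` with only trivial multiplicative relations between the Frobenius eigenvalues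
  of `Z i`, the prime number `p` and roots of unity (`IsNeat`)

by successive

* unions of two disjoint sets whose slope fields have a real intersection (it is contained in the field
  of real numbers), and
* adjunctions of a factor `Z i` with only trivial relations whose CM field is free over those of the
  factors in the given set (`IsFree`): there is no nonzero rational function on the set of the complex
  embeddings of `E i` which is odd (it changes its sign under complex conjugation) and invariant under
  all automorphisms of `ℂ` that are the identity on all conjugates of these CM fields.

The second part of the theorem (`SlopeCriteria`) gives criteria.

* Let all factors in `F` be of K3 type. If `K` is a subfield of `ℂ` that contains the fields `φ₀ (E i)`,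
  `i ∈ F`, then it contains the slope field of `F`.
* A factor of K3 type, of any dimension, with any CM field, has only trivial relations (Zarhin).
* Let all proper subfields of `E i` be totally real, and let there be a dominant slope
  (`IsDominant`): `|s (φ₀) - 1/2| > 0` is at least the sum of the numbers `|s (φ) - 1/2|` over the other
  pairs of complex conjugate embeddings `φ`. Then `Z i` has only trivial relations. For instance all
  slopes are `1 / 2`, except for `0` and `1`, both of multiplicity one or both of multiplicity two; or
  the slopes are `0` and `1`, of multiplicity one, `(n - 1) / (2 n)` and `(n + 1) / (2 n)`, of
  multiplicity `n`, with an odd number `n`, and `1 / 2`.
* Two factors of K3 type whose CM fields have only totally real proper subfields form a merged set if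
  the images of these fields under the distinguished embeddings are different (for instance, if the
  fields are not isomorphic; they may have the same Galois closure).
* Let `Z i` be a factor that is not supersingular, whose dimension is an odd prime number `q`, and let
  `E i` contain no imaginary quadratic field. Then it can be adjoined to each merged set of factors of
  dimensions less than `q`.

Let `𝒞` (`IsMergedAV`) be the class of the abelian varieties `Y` that are isogenous, over an algebraic
closure, to a product of a supersingular abelian variety of any dimension and of powers, with any
exponents, of the factors of some `Z` all of whose factors form a merged set. For example `𝒞` contains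
all products of powers of the factors of `Z_0 × A_1 × ... × A_r`, where `Z_0` has dimension at most five
and no exceptional pair of factors, and the `A_k` are absolutely simple of prime dimensions
`5 < q_1 < ... < q_r`, with CM fields that contain no imaginary quadratic field; and all products of
powers of two abelian varieties of K3 type as above.

`Homology Ω V` are data of motivic homology `M X i j = H_i^M(X, ℚ(j)) = CH_j(X, i - 2 j) ⊗ ℚ` and of
`ℓ`-adic homology `E X i j = H_i(X, ℚ_ℓ(j))` (coefficients extended to `Ω`) of schemes `X` of finite
type over a finite field (the elements of `V`), with the Frobenius and the regulator. Let `𝒢` be the
smallest class (`Generated`) of such schemes that contains those with the homology groups of abelian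
varieties in `𝒞` (`IsMergedAbelian`), that is closed under direct summands of finite sums of twists of
motives, and that contains all of a closed subscheme `Z` of `X`, `X` and `X ∖ Z` if it contains two of
them. It contains for instance the products of curves and of open subsets of curves if the product of
their Jacobians is in `𝒞`, symmetric powers of them, and the singular and the open varieties with a
stratification by such varieties.

**Theorem.** For all smooth projective varieties `X` in `𝒢`, of pure dimension `d`, the pairings
(`CupData`), given by the cup product and the degree map, of `M X a b = H^(2 d - a)(X, ℚ(d - b))` and
`M X (2 d - a) (d - b) = H^a(X, ℚ(b))` are perfect, for all `a` and `b`. These pairings are compatible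
with the ones in `ℓ`-adic cohomology, for which Poincaré duality holds (`IsCup`).

The proof. Let `F`, `F'` be two disjoint sets whose slope fields have a real intersection, and let `n w`
be the exponents of a relation between the eigenvalues `w` of the factors in `F ∪ F'`. With
`s (w) = slope (w) - 1/2`, each automorphism `τ` of `ℂ` gives `P (τ) + P' (τ) = 0`, where `P (τ)` is the
sum of `n (τ w) s (w)` over the eigenvalues `w` for `F`, and `P' (τ)` that for `F'`. Now `P` does not
change if we multiply `τ` from the right by an automorphism that preserves the slopes of `F`, and
`P' = - P` does not change if the slopes of `F'` are preserved. By Galois theory the complex conjugation
of a large Galois CM field is induced by an element of the group generated by these automorphisms, since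
the intersection of the slope fields is real. It changes the sign of `P`. So `P = 0`, and the
part of the relation that belongs to `F` is a relation itself (Kronecker). For a dominant slope `s₀` at
`φ₀`, and the odd part `m` of the exponents, the sum of the nonnegative numbers
`|s (φ)| (m (τ φ) ± m (τ φ₀)) ^ 2` over `τ` (in a finite Galois group) and the other `φ` is
`2 W (∑ |s (φ)| - 2 |s₀|) ≤ 0`, where `W` is the sum of the numbers `m (τ φ₀) ^ 2`; so `m` takes the same
value at `τ φ₀` and at `τ φ₁`, for all `τ` and some `φ₁ ≠ φ₀`. The subfield of `E i` on which `φ₀` and
`φ₁` agree is real, and again by Galois theory `m = - m`. For a free factor `Z i` and an automorphism `σ`
of `ℂ` that fixes the conjugates of the earlier CM fields a relation `R` gives the relation `σ (R) / R`,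
in which only the eigenvalues of `Z i` occur; it is trivial. So the odd part of the exponents of `R` at
`Z i` is invariant under these automorphisms, and vanishes. For the fields of degree `2 q`, an
automorphism of order `q` of the Galois closure has two orbits of length `q` on the embeddings, and then
a rational function with vanishing correlations with a nonconstant one on such an orbit is constant (the
`q`-th cyclotomic polynomial is irreducible); this gives an odd function with the values `1` and `-1`
which the Galois group changes only by a sign, that is, an imaginary quadratic subfield.

Properties of the theory of cycles that are used for the abelian varieties (`IsChow`, `IsMotivic`), all
of them known theorems: Poincaré duality, the formal properties of correspondences, the nilpotence of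
homologically trivial correspondences (Kimura), the operation of the Frobenius endomorphism on higher
Chow groups, the vanishing of the higher rational `K`-groups of a finite field (Quillen), and the
algebraicity of the Tate classes generated by divisors and by the reductions of split Weil classes on
abelian fourfolds and sixfolds of CM type (Tate, Markman).

That the Tate classes are algebraic if the relations between the Frobenius eigenvalues are generated by
elementary ones (`HasElementaryRelations`) is a theorem of the starting files
(`MP_ee618e_ag.ElementaryRelations`); the passage from the Tate conjecture to all degrees and to the
class `𝒢` is due to Soulé, Geisser, Kahn and Jannsen. For the powers of one abelian variety of K3 type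
the Tate conjecture is a theorem of Zarhin, for one simple abelian variety of prime dimension it is a
theorem of Tankeev; see also Lenstra and Zarhin.
-/

set_option autoImplicit false

namespace Pool.Agent.Results.MP_a9d3bd_ag.SlopeFields

open Pool.Agent.W495.TA Pool.Agent.W495.FM Pool.Agent.X303.TBDual Pool.Agent.K3h98.KT

/-- **The motivic cup product pairings of all smooth projective varieties generated by abelian
varieties that are merged from sets of factors whose slope fields have real intersections are perfect;
and criteria.** -/
theorem result :
    (∀ (p : ℕ) [Fact p.Prime] (ν : PadicAlgCl p ≃+* ℂ) (Ω : Type) [Field Ω] [IsAlgClosed Ω]
      [CharZero Ω] (V : Type) (T : Homology Ω V), IsHomology T →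
        ∀ X : V, Generated T (IsMergedAbelian p ν T) X → ∀ (d : ℤ) (D : CupData T X d), IsCup D →
          ∀ a b : ℤ, IsPerfect (D.cup a b)) ∧
    SlopeCriteria :=
  ⟨fun _ _ _ _ _ _ _ _ _ hT _ hX _ _ hD a b => perfect hT (tb_merged hT hX) hD a b,
    slope_criteria⟩

end Pool.Agent.Results.MP_a9d3bd_ag.SlopeFields
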